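import Pool.Agent.helper55.FPZ.Spec

/-!
# Row fpz:DG (simultaneous diagonalisation)
-/

set_option autoImplicit false

namespace Pool.Agent.FPZ

open Matrix Polynomial Pool.Agent.PL Pool.Agent.X4

theorem DG_sqf {N : ℕ} (z : Matrix (Fin N) (Fin N) ℚ)
    (h : ∀ p : ℚ[X], aeval z p ^ 2 = 0 → aeval z p = 0) : Squarefree (minpoly ℚ z) := by
  intro q hq
  obtain ⟨r, hr⟩ := hq
  have hint : IsIntegral ℚ z := Algebra.IsIntegral.isIntegral z
  have h0 : minpoly ℚ z ≠ 0 := minpoly.ne_zero hint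
  have h1 : aeval z (q * r) ^ 2 = 0 := by
    rw [← map_pow]
    have e : (q * r) ^ 2 = minpoly ℚ z * r := by
      rw [hr]
      ring
    rw [e, map_mul, minpoly.aeval, zero_mul]
  have h3 : minpoly ℚ z ∣ q * r := minpoly.dvd ℚ z (h _ h1)
  rw [hr] at h3
  obtain ⟨s, hs⟩ := h3
  have hqr : q * r ≠ 0 := by
    intro h4
    apply h0
    rw [hr, mul_assoc, h4, mul_zero]
  have h5 : q * s = 1 := by
    refine mul_left_cancel₀ hqr ?_
    calc q * r * (q * s) = q * q * r * s := by ring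
      _ = q * r := hs.symm
      _ = q * r * 1 := (mul_one _).symm
  exact IsUnit.of_mul_eq_one s h5

theorem DG_cst {F : Type} [Field F] [CharZero F] {N : ℕ} (z : Matrix (Fin N) (Fin N) ℚ) :
    cst F z = (Algebra.ofId ℚ F).mapMatrix z := by
  ext i j
  show ((z i j : ℚ) : F) = (algebraMap ℚ F) (z i j)
  rw [eq_ratCast]

theorem DG_ss {F : Type} [Field F] [CharZero F] {N : ℕ} (z : Matrix (Fin N) (Fin N) ℚ)
    (h : ∀ p : ℚ[X], aeval z p ^ 2 = 0 → aeval z p = 0) :
    Module.End.IsSemisimple (Matrix.toLinAlgEquiv' (cst F z)) := by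
  have hsep : (minpoly ℚ z).Separable := PerfectField.separable_iff_squarefree.2 (DG_sqf z h)
  have hsq : Squarefree ((minpoly ℚ z).map (algebraMap ℚ F)) := hsep.map.squarefree
  refine Module.End.isSemisimple_of_squarefree_aeval_eq_zero hsq ?_
  have h1 : aeval (cst F z) ((minpoly ℚ z).map (algebraMap ℚ F)) = 0 := by
    rw [aeval_map_algebraMap, DG_cst, aeval_algHom_apply, minpoly.aeval, map_zero]
  have h2 : aeval (Matrix.toLinAlgEquiv' (cst F z)) ((minpoly ℚ z).map (algebraMap ℚ F)) =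
      Matrix.toLinAlgEquiv' (aeval (cst F z) ((minpoly ℚ z).map (algebraMap ℚ F))) :=
    aeval_algHom_apply (Matrix.toLinAlgEquiv' (R := F) (n := Fin N)).toAlgHom (cst F z) _
  rw [h2, h1, map_zero]

theorem DG : DG_stmt := by
  intro F _ _ _ N Z hcomm hss
  let T : Z → Module.End F (Fin N → F) := fun z => Matrix.toLinAlgEquiv' (cst F z.1)
  have hT : ∀ (z : Z) (v : Fin N → F), T z v = cst F z.1 *ᵥ v := fun z v => rfl
  have hc : Pairwise fun i j => Commute (T i) (T j) := by
    intro z z' _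
    show T z * T z' = T z' * T z
    show Matrix.toLinAlgEquiv' (cst F z.1) * Matrix.toLinAlgEquiv' (cst F z'.1) =
      Matrix.toLinAlgEquiv' (cst F z'.1) * Matrix.toLinAlgEquiv' (cst F z.1)
    rw [← map_mul, ← map_mul, DG_cst, DG_cst, ← map_mul, ← map_mul, hcomm z.1 z.2 z'.1 z'.2]
  have h1 := Module.End.iSup_iInf_maxGenEigenspace_eq_top_of_iSup_maxGenEigenspace_eq_top_of_commute
    T hc fun z => Module.End.iSup_maxGenEigenspace_eq_top (T z)
  let S : Set (Fin N → F) := {v | ∀ z : Z, ∃ μ : F, T z v = μ • v}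
  have hS : ⊤ ≤ Submodule.span F S := by
    rw [← h1]
    refine iSup_le fun χ v hv => Submodule.subset_span fun z => ⟨χ z, ?_⟩
    have h2 : v ∈ (T z).maxGenEigenspace (χ z) := (Submodule.mem_iInf _).1 hv z
    have h3 : (T z).IsSemisimple := DG_ss z.1 (hss z.1 z.2)
    rw [h3.isFinitelySemisimple.maxGenEigenspace_eq_eigenspace] at h2
    exact Module.End.mem_eigenspace_iff.1 h2
  let b0 := Module.Basis.ofSpan hS
  let b : Module.Basis (Fin N) F (Fin N → F) := b0.reindex (b0.indexEquiv (Pi.basisFun F (Fin N)))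
  have hb : ∀ j, b j ∈ S := by
    intro j
    have h2 : b j = b0 ((b0.indexEquiv (Pi.basisFun F (Fin N))).symm j) := b0.reindex_apply _ j
    rw [h2]
    exact Module.Basis.ofSpan_subset hS (Set.mem_range_self _)
  let G : Matrix (Fin N) (Fin N) F := Matrix.of fun i j => b j i
  refine ⟨G, Matrix.linearIndependent_cols_iff_isUnit.1 ?_, fun z hz => ?_⟩
  · have h2 : G.col = b := rfl
    rw [h2]
    exact b.linearIndependent
  · have h2 : ∀ j, ∃ μ : F, T ⟨z, hz⟩ (b j) = μ • b j := fun j => hb j ⟨z, hz⟩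
    choose d hd using h2
    refine ⟨d, ?_⟩
    ext i j
    rw [Matrix.mul_diagonal]
    have h3 := congrFun (hd j) i
    rw [hT] at h3
    have h4 : (cst F z * G) i j = (cst F z *ᵥ b j) i := rfl
    rw [h4, h3]
    show d j * b j i = b j i * d j
    ring

end Pool.Agent.FPZ
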